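import Pool.Agent.W169.QP.Stm

set_option autoImplicit false

/-!
Project RT (helper169): exponential tail for the number of real zeros and of low-lying zeros of
quadratic Dirichlet L-functions; complex mollified moments. Statements of the parts.
-/

namespace Pool.Agent.W169.RT

open Finset Filter Topology MeasureTheory Pool.Agent.H306R2.RZ Pool.Agent.H306R2.RG
open Pool.Agent.W169.QP (Nn Na Mf)

noncomputable section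

/-- the functional `Φ ↦ N_d[K Φ]` -/
def NN0 (φ : FD) (L : ℝ) (d : ℕ) (Φ : ℝ → ℝ) : ℝ := Nfg φ L (KGg φ L (beg φ L d) Φ) d

/-- real and imaginary part of `2 cosh (z τ) ρ τ` -/
def PR (ρ : ℝ → ℝ) (z : ℂ) (τ : ℝ) : ℝ := 2 * (Complex.cosh (z * (τ : ℂ))).re * ρ τ
def PJ (ρ : ℝ → ℝ) (z : ℂ) (τ : ℝ) : ℝ := 2 * (Complex.cosh (z * (τ : ℂ))).im * ρ τ

/-- the entire function with value `e^{x/2} N_d(x)` at real `x` -/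
def GC (φ : FD) (L : ℝ) (ρ : ℝ → ℝ) (d : ℕ) (z : ℂ) : ℂ :=
  (NN0 φ L d (PR ρ z) : ℂ) + (NN0 φ L d (PJ ρ z) : ℂ) * Complex.I

/-- the completed L-function -/
def LamC {N : ℕ} [NeZero N] (χ : DirichletCharacter ℂ N) (s : ℂ) : ℂ :=
  (N : ℂ) ^ (s / 2) * DirichletCharacter.completedLFunction χ s

/-- part ID: the entire function `GC` is the completed L-function -/
def S_ID : Prop := ∀ (φ : FD), Fam φ → ∀ (δ : ℝ), 0 < δ → ∀ (ρ : ℝ → ℝ), RH δ ρ →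
    ∀ d : ℕ, d ∈ SFg φ → ∀ (N : ℕ) (_ : NeZero N)
    (χ : DirichletCharacter ℂ N), χ.IsPrimitive → χ ^ 2 = 1 → χ ≠ 1 → N = φ.r * d →
    (∀ n : ℕ, n ≠ 0 → χ (n : ZMod N) = ((cf φ d n : ℝ) : ℂ)) →
    ∀ L : ℝ, 0 < L → ∀ z : ℂ,
      LamC χ (1 / 2 + z / (L : ℂ)) =
        ((((φ.r : ℝ) * d) ^ (1 / 4 : ℝ) * g0g φ : ℝ) : ℂ) * GC φ L ρ d z

/-- part CM: the mixed mollified second moment at complex points -/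
def S_CM : Prop := ∀ (φ : FD), FG φ → ∀ (F : ℝ → ℝ), TF F → (∀ x, 0 ≤ F x) → ∀ (δ e θ : ℝ),
    0 < δ → δ ≤ 1 / 64 → 0 < e → e ≤ θ / 100 → Adm2 (1 / 2 + 3 * δ) θ → ∀ (ρ r κ : ℝ → ℝ),
    RH δ ρ → ST (θ / 4) θ r → KP δ e κ →
    ∃ (C L0 : ℝ) (m : ℕ), 0 < C ∧ ∀ L : ℝ, L0 ≤ L → ∀ (z : ℂ) (y : ℝ), 0 ≤ z.re → ‖z‖ ≤ L / 2 →
      0 ≤ y → y ≤ L / 2 →
      EAg φ F (Real.exp L) (fun d =>
          (Real.exp (-(z.re / 2)) * NN0 φ L d (PR ρ z) * Mf φ L r κ d y) ^ 2) ≤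
        C * (1 + ‖z‖) ^ m * (1 + y) ^ m * Real.exp (4 * e * (z.re + y)) ∧
      EAg φ F (Real.exp L) (fun d =>
          (Real.exp (-(z.re / 2)) * NN0 φ L d (PJ ρ z) * Mf φ L r κ d y) ^ 2) ≤
        C * (1 + ‖z‖) ^ m * (1 + y) ^ m * Real.exp (4 * e * (z.re + y))

/-- part SUP: from the second moment to the maximum on a disc -/
def S_SUP : Prop := ∀ (φ : FD), Fam φ → FG φ → CG φ → ∀ (F : ℝ → ℝ), TF F → (∀ x, 0 ≤ F x) →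
    ∀ (δ e θ : ℝ), 0 < δ → δ ≤ 1 / 64 → 0 < e → e ≤ θ / 100 → Adm2 (1 / 2 + 3 * δ) θ →
    ∀ (ρ r κ : ℝ → ℝ), RH δ ρ → ST (θ / 4) θ r → KP δ e κ →
    ∃ C L0 : ℝ, 0 < C ∧ ∀ L : ℝ, L0 ≤ L → ∀ Y : ℝ, 1 ≤ Y → 12 * Y ≤ L →
      cnt F L (SFg φ ∩ {d | ∃ z : ℂ, ‖z‖ ≤ 5 * Y ∧
        Real.exp (5 * Y) < ‖GC φ L ρ d z‖ * |Mf φ L r κ d Y|}) ≤ C * Real.exp (-Y)

/-- part JEN: Jensen's inequality -/
def S_JEN : Prop := ∀ (g : ℂ → ℂ), Differentiable ℂ g → ∀ (z1 : ℂ) (R ρ B : ℝ), 0 ≤ R → R < ρ →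
    ‖z1‖ ≤ ρ → (∀ z : ℂ, ‖z‖ = ρ → ‖g z‖ ≤ B) → g z1 ≠ 0 →
    ∀ S : Finset ℂ, (∀ s ∈ S, ‖s‖ ≤ R) →
      ‖g z1‖ * (ρ - R) ^ (∑ s ∈ S, analyticOrderNatAt g s) ≤
        (‖z1‖ + R) ^ (∑ s ∈ S, analyticOrderNatAt g s) * B

/-- at most `5 X0` zeros in the disc of radius `X0/2` -/
def ZC (φ : FD) (L X0 : ℝ) (d : ℕ) : Prop := ∀ (N : ℕ) (_ : NeZero N)
    (χ : DirichletCharacter ℂ N), χ.IsPrimitive → χ ^ 2 = 1 → χ ≠ 1 → N = φ.r * d →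
    (∀ n : ℕ, n ≠ 0 → χ (n : ZMod N) = ((cf φ d n : ℝ) : ℂ)) →
    ∀ S : Finset ℂ, (∀ s ∈ S, ‖s‖ ≤ X0 / 2) →
      ∑ s ∈ S, (analyticOrderNatAt (fun z => LamC χ (1 / 2 + z / (L : ℂ))) s : ℝ) ≤ 5 * X0

/-- good discriminants -/
def GoodZ (φ : FD) (L X0 : ℝ) (d : ℕ) : Prop :=
  (∀ x : ℝ, X0 / 2 ≤ x → x ≤ L / 2 → 0 < Nn φ L d x) ∧ ZC φ L X0 d

/-- part ZB: most discriminants are good -/
def S_ZB : Prop := ∀ (φ : FD), Fam φ → ∀ (F : ℝ → ℝ), TF F → (∀ x, 0 ≤ F x) →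
    ∃ C c L0 : ℝ, 0 < C ∧ 0 < c ∧ ∀ L : ℝ, L0 ≤ L → ∀ X0 : ℝ, 1 ≤ X0 → 6 * X0 ≤ L →
      cnt F L (SFg φ ∩ {d | ¬ GoodZ φ L X0 d}) ≤ C * Real.exp (-(c * X0))

/-- part ORD: the zeros of the L-function near `(0,1)` are those of the completed function -/
def S_ORD : Prop := ∀ (N : ℕ) (_ : NeZero N) (χ : DirichletCharacter ℂ N), χ ≠ 1 →
    ∀ L : ℝ, 0 < L → ∀ s : ℂ, 0 < s.re →
      analyticOrderNatAt (DirichletCharacter.LFunction χ) s =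
        analyticOrderNatAt (fun z => LamC χ (1 / 2 + z / (L : ℂ))) ((L : ℂ) * (s - 1 / 2))

/-- part DET: a bound for the number of zeros in a fixed disc, for every character -/
def S_DET : Prop := ∃ C : ℝ, 0 < C ∧ ∀ (N : ℕ) (_ : NeZero N) (χ : DirichletCharacter ℂ N),
    χ.IsPrimitive → χ ≠ 1 → ∀ S : Finset ℂ, (∀ s ∈ S, ‖s - 1 / 2‖ ≤ 1 / 2) →
      ∑ s ∈ S, (analyticOrderNatAt (DirichletCharacter.LFunction χ) s : ℝ) ≤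
        C * Real.log N

end

end Pool.Agent.W169.RT
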